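import Pool.Agent.X39.CA.Main

set_option autoImplicit false

/-!
# Infinite profinite CA-groups which are not prosoluble

The groups are the `SL(2, F[[t]])` for the finite fields `F` with `2 ^ m` elements, `m ≥ 2`.
-/

namespace Pool.Agent.Results.MP_d2e4ca_al.PowerSeriesSL2

open scoped MatrixGroups

/-- `G` is a CA-group: the centralizer of every nontrivial element is abelian. -/
def IsCA (G : Type) [Group G] : Prop :=
  ∀ x : G, x ≠ 1 → ∀ y ∈ Subgroup.centralizer {x}, ∀ z ∈ Subgroup.centralizer {x}, y * z = z * y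

/-- A profinite group is prosoluble: all its quotients by open normal subgroups are soluble. -/
def IsProsoluble (G : Type) [Group G] [TopologicalSpace G] : Prop :=
  ∀ (N : Subgroup G) [N.Normal], IsOpen (N : Set G) → Group.IsSolvable (G ⧸ N)

/-- For every `m ≥ 2` there is an infinite profinite (compact, Hausdorff, totally disconnected)
CA-group which is not prosoluble and has an open normal subgroup `N` with `G / N` isomorphic to
`SL(2, 2 ^ m)`. -/
theorem result (m : ℕ) (hm : 2 ≤ m) :
    ∃ (G : Type) (_ : Group G) (_ : TopologicalSpace G), IsTopologicalGroup G ∧ CompactSpace G ∧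
      T2Space G ∧ TotallyDisconnectedSpace G ∧ Infinite G ∧ IsCA G ∧ ¬ IsProsoluble G ∧
      ∃ (N : Subgroup G) (_ : N.Normal), IsOpen (N : Set G) ∧
        Nonempty (G ⧸ N ≃* SL(2, GaloisField 2 m)) := by
  have hF : 2 < Nat.card (GaloisField 2 m) := by
    rw [GaloisField.card 2 m (by omega)]
    calc 2 < 2 ^ 2 := by norm_num
      _ ≤ 2 ^ m := Nat.pow_le_pow_right (by norm_num) hm
  refine ⟨SL(2, Pool.Agent.X39.CA.Rg (GaloisField 2 m)), inferInstance, inferInstance, inferInstance,
    inferInstance, inferInstance, inferInstance, inferInstance, ?_, ?_,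
    Pool.Agent.X39.CA.Nn (GaloisField 2 m), inferInstance,
    Pool.Agent.X39.CA.Nn_open (GaloisField 2 m), ⟨Pool.Agent.X39.CA.quo (GaloisField 2 m)⟩⟩
  · intro x hx y hy z hz
    rw [Subgroup.mem_centralizer_singleton_iff] at hy hz
    exact Pool.Agent.X39.CA.ca x hx y z hy.symm hz.symm
  · intro h
    exact Pool.Agent.X39.CA.not_solvable (GaloisField 2 m) hF
      (h (Pool.Agent.X39.CA.Nn (GaloisField 2 m)) (Pool.Agent.X39.CA.Nn_open (GaloisField 2 m)))

end Pool.Agent.Results.MP_d2e4ca_al.PowerSeriesSL2
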